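import Pool.Agent.X143.SD.Stm

set_option autoImplicit false

namespace Pool.Agent.X50.SDO

open Finset Pool.Agent.X143.SD

lemma pow_lip {s t : ℝ} (hs0 : 0 ≤ s) (hs1 : s ≤ 1) (ht0 : 0 ≤ t) (ht1 : t ≤ 1) (j : ℕ) :
    |s ^ j - t ^ j| ≤ j * |s - t| := by
  induction j with
  | zero => simp
  | succ j ih =>
    have e : s ^ (j + 1) - t ^ (j + 1) = s ^ j * (s - t) + (s ^ j - t ^ j) * t := by ring
    rw [e]
    have h1 : |s ^ j * (s - t)| ≤ |s - t| := by
      rw [abs_mul, abs_of_nonneg (pow_nonneg hs0 j)]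
      exact mul_le_of_le_one_left (abs_nonneg _) (pow_le_one₀ hs0 hs1)
    have h2 : |(s ^ j - t ^ j) * t| ≤ j * |s - t| := by
      rw [abs_mul, abs_of_nonneg ht0]
      calc |s ^ j - t ^ j| * t ≤ |s ^ j - t ^ j| * 1 := mul_le_mul_of_nonneg_left ht1 (abs_nonneg _)
        _ ≤ j * |s - t| := by rw [mul_one]; exact ih
    refine (abs_add_le _ _).trans ?_
    push_cast
    linarith

lemma PP_nonneg {d : ℕ} {s : ℝ} (hs0 : 0 ≤ s) : 0 ≤ PP d s :=
  Finset.sum_nonneg fun j _ => pow_nonneg hs0 j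

lemma PP_le {d : ℕ} {s : ℝ} (hs0 : 0 ≤ s) (hs1 : s ≤ 1) : PP d s ≤ d := by
  unfold PP
  calc ∑ j ∈ range d, s ^ j ≤ ∑ _j ∈ range d, (1 : ℝ) :=
        Finset.sum_le_sum fun j _ => pow_le_one₀ hs0 hs1
    _ = d := by simp

lemma PP_lip {d : ℕ} {s t : ℝ} (hs0 : 0 ≤ s) (hs1 : s ≤ 1) (ht0 : 0 ≤ t) (ht1 : t ≤ 1) :
    |PP d s - PP d t| ≤ (d : ℝ) ^ 2 * |s - t| := by
  unfold PP
  rw [← Finset.sum_sub_distrib]
  refine (Finset.abs_sum_le_sum_abs _ _).trans ?_
  calc ∑ j ∈ range d, |s ^ j - t ^ j| ≤ ∑ _j ∈ range d, (d : ℝ) * |s - t| := by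
        apply Finset.sum_le_sum
        intro j hj
        refine (pow_lip hs0 hs1 ht0 ht1 j).trans ?_
        apply mul_le_mul_of_nonneg_right _ (abs_nonneg _)
        exact_mod_cast (Finset.mem_range.mp hj).le
    _ = (d : ℝ) ^ 2 * |s - t| := by
        rw [Finset.sum_const, Finset.card_range, nsmul_eq_mul]; ring

lemma PP_geom (d : ℕ) (s : ℝ) : (1 - s) * PP d s = 1 - s ^ d := by
  unfold PP
  rw [mul_comm]
  have := geom_sum_mul s d
  linarith

lemma phi_bd {n d c : ℕ} (hc : c ≤ n) (hd : d ≤ n) : 0 ≤ phi n d c ∧ phi n d c ≤ 1 := by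
  unfold phi
  have hpos : (0 : ℝ) < (n.descFactorial d : ℝ) := by
    exact_mod_cast Nat.descFactorial_pos.mpr hd
  constructor
  · positivity
  · rw [div_le_one hpos]
    exact_mod_cast Nat.descFactorial_le d hc

lemma phi_approx {n d c : ℕ} (hn : 2 * d ≤ n) (hc : c ≤ n) : ∀ j ≤ d,
    |phi n j c - ((c : ℝ) / n) ^ j| ≤ (j : ℝ) ^ 2 * ((1 - (c : ℝ) / n) / n) := by
  intro j
  induction j with
  | zero =>
    intro _
    simp [phi]
  | succ j ih =>
    intro hj
    have ihj := ih (by omega)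
    have hnpos : (0 : ℝ) < n := by
      have : 0 < n := by omega
      exact_mod_cast this
    have hnj : (0 : ℝ) < (n : ℝ) - j := by
      have : j < n := by omega
      have : (j : ℝ) < n := by exact_mod_cast this
      linarith
    have hnj2 : (n : ℝ) / 2 ≤ (n : ℝ) - j := by
      have : 2 * j ≤ n := by omega
      have : (2 : ℝ) * j ≤ n := by exact_mod_cast this
      linarith
    have hcn : (c : ℝ) ≤ n := by exact_mod_cast hc
    have hj0 : (0 : ℝ) ≤ j := Nat.cast_nonneg j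
    have hc0 : (0 : ℝ) ≤ c := Nat.cast_nonneg c
    set t : ℝ := (c : ℝ) / n with ht
    have ht0 : 0 ≤ t := by positivity
    have ht1 : t ≤ 1 := by rw [ht, div_le_one hnpos]; exact hcn
    set r : ℝ := ((c - j : ℕ) : ℝ) / ((n : ℝ) - j) with hr
    have hphi : phi n (j + 1) c = phi n j c * r := by
      unfold phi
      rw [Nat.descFactorial_succ, Nat.descFactorial_succ, hr, Nat.cast_mul, Nat.cast_mul,
        Nat.cast_sub (show j ≤ n by omega), div_mul_div_comm, mul_comm ((c - j : ℕ) : ℝ),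
        mul_comm ((n : ℝ) - j)]
    have hdiff : |r - t| ≤ 2 * j * ((1 - t) / n) := by
      rcases le_or_gt j c with hcj | hcj
      · have hr' : r = ((c : ℝ) - j) / ((n : ℝ) - j) := by rw [hr, Nat.cast_sub hcj]
        have e : t - r = j * (1 - t) / ((n : ℝ) - j) := by
          rw [hr', ht]
          field_simp
          ring
        rw [abs_sub_comm, e, abs_of_nonneg (by
          apply div_nonneg _ hnj.le
          exact mul_nonneg hj0 (by linarith))]
        rw [div_le_iff₀ hnj]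
        have h3 : 2 * j * ((1 - t) / n) * (n / 2) ≤ 2 * j * ((1 - t) / n) * ((n : ℝ) - j) := by
          apply mul_le_mul_of_nonneg_left hnj2
          apply mul_nonneg (by positivity)
          exact div_nonneg (by linarith) hnpos.le
        have h4 : 2 * j * ((1 - t) / n) * (n / 2) = j * (1 - t) := by
          field_simp
        linarith
      · have hr0 : r = 0 := by
          rw [hr, Nat.sub_eq_zero_of_le hcj.le]; simp
        rw [hr0, zero_sub, abs_neg, abs_of_nonneg ht0]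
        have hcj' : (c : ℝ) ≤ j := by exact_mod_cast hcj.le
        have h5 : t ≤ j / n := by
          rw [ht]; exact div_le_div_of_nonneg_right hcj' hnpos.le
        have h6 : (j : ℝ) / n ≤ 1 / 2 := by
          rw [div_le_iff₀ hnpos]; linarith
        have h7 : (j : ℝ) / n ≤ 2 * j * ((1 - t) / n) := by
          have e : 2 * j * ((1 - t) / n) = (j / n) * (2 * (1 - t)) := by ring
          rw [e]
          have : (1 : ℝ) ≤ 2 * (1 - t) := by linarith
          exact le_mul_of_one_le_right (by positivity) this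
        linarith
    rw [hphi]
    have hb := phi_bd (d := j) hc (by omega)
    have e : phi n j c * r - t ^ (j + 1) = phi n j c * (r - t) + (phi n j c - t ^ j) * t := by ring
    rw [e]
    have h1 : |phi n j c * (r - t)| ≤ |r - t| := by
      rw [abs_mul, abs_of_nonneg hb.1]
      exact mul_le_of_le_one_left (abs_nonneg _) hb.2
    have h2 : |(phi n j c - t ^ j) * t| ≤ |phi n j c - t ^ j| := by
      rw [abs_mul, abs_of_nonneg ht0]
      exact mul_le_of_le_one_right (abs_nonneg _) ht1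
    refine (abs_add_le _ _).trans ?_
    have h8 : 0 ≤ (1 - t) / n := div_nonneg (by linarith) hnpos.le
    push_cast
    nlinarith

/-- final real inequality -/
lemma final (D K C0 N x y s1 s2 U V T1 T2 : ℝ) (hN : 1 ≤ N) (hD : 0 ≤ D) (hK : 0 ≤ K) (hC0 : 0 ≤ C0)
    (hU0 : 0 ≤ U) (hU1 : U ≤ 1) (hV0 : 0 ≤ V) (hV1 : V ≤ 1)
    (hs1 : |s1| ≤ (D + K) / N) (hs2 : |s2| ≤ (D + K) / N)
    (hT1 : 2 * x * s1 - 2 / N * U * x = T1) (hT2 : 2 * y * s2 + 2 / N * (U - V) * y = T2)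
    (hb1 : |T1| ≤ 2 * |x| / N * (D * |x| + D ^ 2 * (|x| + |y|)) + (2 * C0 + 2 * K) / N ^ 2)
    (hb2 : |T2| ≤ 2 * |y| / N * ((D + D ^ 2) * (|x| + |y|)) + (4 * C0 + 2 * K) / N ^ 2) :
    (x + s1) ^ 2 + (y + s2) ^ 2 + 2 / N * (-U * (x + s1) + (U - V) * (y + s2)) + (2 * U + V) / N ^ 2
      ≤ (1 + (4 * (D + D ^ 2) + (6 * C0 + 4 * K + 2 * (D + K) ^ 2 + 4 * (D + K) + 3)) / N)
          * (x ^ 2 + y ^ 2)
        + (4 * (D + D ^ 2) + (6 * C0 + 4 * K + 2 * (D + K) ^ 2 + 4 * (D + K) + 3)) / N ^ 2 := by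
  have hNpos : 0 < N := by linarith
  have e : (x + s1) ^ 2 + (y + s2) ^ 2 + 2 / N * (-U * (x + s1) + (U - V) * (y + s2))
      + (2 * U + V) / N ^ 2 = x ^ 2 + y ^ 2 + T1 + T2 + (s1 ^ 2 + s2 ^ 2)
        + 2 / N * (-U * s1 + (U - V) * s2) + (2 * U + V) / N ^ 2 := by
    rw [← hT1, ← hT2]; ring
  rw [e]
  have hq : 0 ≤ (D + K) / N := by positivity
  have q1 : s1 ^ 2 ≤ ((D + K) / N) ^ 2 := sq_le_sq' (by linarith [neg_abs_le s1]) ((le_abs_self _).trans hs1)
  have q2 : s2 ^ 2 ≤ ((D + K) / N) ^ 2 := sq_le_sq' (by linarith [neg_abs_le s2]) ((le_abs_self _).trans hs2)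
  have q3 : -U * s1 + (U - V) * s2 ≤ 2 * ((D + K) / N) := by
    have a1 : -U * s1 ≤ (D + K) / N := by
      have : |U * s1| ≤ (D + K) / N := by
        rw [abs_mul, abs_of_nonneg hU0]
        exact (mul_le_of_le_one_left (abs_nonneg _) hU1).trans hs1
      have := neg_abs_le (U * s1)
      linarith
    have a2 : (U - V) * s2 ≤ (D + K) / N := by
      have : |(U - V) * s2| ≤ (D + K) / N := by
        rw [abs_mul]
        have : |U - V| ≤ 1 := abs_le.mpr ⟨by linarith, by linarith⟩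
        exact (mul_le_of_le_one_left (abs_nonneg _) this).trans hs2
      exact (le_abs_self _).trans this
    linarith
  have q4 : 2 / N * (-U * s1 + (U - V) * s2) ≤ 4 * (D + K) / N ^ 2 := by
    have := mul_le_mul_of_nonneg_left q3 (show 0 ≤ 2 / N by positivity)
    refine this.trans (le_of_eq ?_)
    field_simp
    ring
  have q5 : (2 * U + V) / N ^ 2 ≤ 3 / N ^ 2 := by
    apply div_le_div_of_nonneg_right _ (by positivity)
    linarith
  have q6 : 2 * |x| / N * (D * |x| + D ^ 2 * (|x| + |y|)) + 2 * |y| / N * ((D + D ^ 2) * (|x| + |y|))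
      ≤ 4 * (D + D ^ 2) / N * (x ^ 2 + y ^ 2) := by
    have hx := abs_nonneg x
    have hy := abs_nonneg y
    have e1 : 2 * |x| / N * (D * |x| + D ^ 2 * (|x| + |y|)) + 2 * |y| / N * ((D + D ^ 2) * (|x| + |y|))
        = 2 / N * (|x| * (D * |x| + D ^ 2 * (|x| + |y|)) + |y| * ((D + D ^ 2) * (|x| + |y|))) := by
      field_simp
    have e2 : 4 * (D + D ^ 2) / N * (x ^ 2 + y ^ 2) = 2 / N * (2 * (D + D ^ 2) * (x ^ 2 + y ^ 2)) := by
      field_simp
      ring
    rw [e1, e2]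
    apply mul_le_mul_of_nonneg_left _ (by positivity)
    rw [← sq_abs x, ← sq_abs y]
    have h9 : 0 ≤ (D + D ^ 2) * (|x| - |y|) ^ 2 := by positivity
    have h10 : 0 ≤ D * (|x| * |y|) := by positivity
    nlinarith
  have t1 := (le_abs_self T1).trans hb1
  have t2 := (le_abs_self T2).trans hb2
  have q7 : ((D + K) / N) ^ 2 = (D + K) ^ 2 / N ^ 2 := by rw [div_pow]
  rw [q7] at q1 q2
  have q8 : 0 ≤ (6 * C0 + 4 * K + 2 * (D + K) ^ 2 + 4 * (D + K) + 3) / N * (x ^ 2 + y ^ 2) := by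
    positivity
  have q9 : 0 ≤ 4 * (D + D ^ 2) / N ^ 2 := by positivity
  have e3 : (1 + (4 * (D + D ^ 2) + (6 * C0 + 4 * K + 2 * (D + K) ^ 2 + 4 * (D + K) + 3)) / N)
          * (x ^ 2 + y ^ 2) = x ^ 2 + y ^ 2 + 4 * (D + D ^ 2) / N * (x ^ 2 + y ^ 2)
            + (6 * C0 + 4 * K + 2 * (D + K) ^ 2 + 4 * (D + K) + 3) / N * (x ^ 2 + y ^ 2) := by ring
  have e4 : (4 * (D + D ^ 2) + (6 * C0 + 4 * K + 2 * (D + K) ^ 2 + 4 * (D + K) + 3)) / N ^ 2
      = 4 * (D + D ^ 2) / N ^ 2 + (2 * C0 + 2 * K) / N ^ 2 + (4 * C0 + 2 * K) / N ^ 2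
        + 2 * ((D + K) ^ 2 / N ^ 2) + 4 * (D + K) / N ^ 2 + 3 / N ^ 2 := by ring
  rw [e3, e4]
  linarith

theorem t_ONE : Pool.Agent.X143.SD.S_ONE := by
  intro d K hd hK
  refine ⟨4 * ((d : ℝ) + (d : ℝ) ^ 2) + (6 * (d : ℝ) ^ 2 + 4 * K + 2 * ((d : ℝ) + K) ^ 2
    + 4 * ((d : ℝ) + K) + 3), by positivity, ?_⟩
  intro n hn a b hab α β α' β' hα hβ hαβ h1 h2
  have hn1 : (1 : ℝ) ≤ n := by
    have : 1 ≤ n := by omega
    exact_mod_cast this
  have hnpos : (0 : ℝ) < n := by linarith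
  have habR : (a : ℝ) + b ≤ n := by exact_mod_cast hab
  have ha0 : (0 : ℝ) ≤ a := Nat.cast_nonneg a
  have hb0 : (0 : ℝ) ≤ b := Nat.cast_nonneg b
  have hd0 : (0 : ℝ) ≤ d := Nat.cast_nonneg d
  set A : ℝ := (a : ℝ) / n with hA
  set B : ℝ := (b : ℝ) / n with hB
  have hA0 : 0 ≤ A := by positivity
  have hB0 : 0 ≤ B := by positivity
  have hABe : A + B = ((a : ℝ) + b) / n := by rw [hA, hB]; ring
  have hAB : A + B ≤ 1 := by rw [hABe, div_le_one hnpos]; exact habR
  set P : ℝ := PP d (1 - α - β) with hP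
  set PA : ℝ := PP d (1 - A - B) with hPA
  have hP0 : 0 ≤ P := PP_nonneg (by linarith)
  have hPd : P ≤ d := PP_le (by linarith) (by linarith)
  have hPA0 : 0 ≤ PA := PP_nonneg (by linarith)
  have hPAd : PA ≤ d := PP_le (by linarith) (by linarith)
  set x : ℝ := A - α with hx
  set y : ℝ := B - β with hy
  have hx1 : |x| ≤ 1 := abs_le.mpr ⟨by linarith, by linarith⟩
  have hy1 : |y| ≤ 1 := abs_le.mpr ⟨by linarith, by linarith⟩
  have hPPA : |P - PA| ≤ (d : ℝ) ^ 2 * (|x| + |y|) := by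
    refine (PP_lip (d := d) (s := 1 - α - β) (t := 1 - A - B) (by linarith) (by linarith)
      (by linarith) (by linarith)).trans ?_
    apply mul_le_mul_of_nonneg_left _ (by positivity)
    have e : 1 - α - β - (1 - A - B) = x + y := by rw [hx, hy]; ring
    rw [e]
    exact abs_add_le _ _
  set ph : ℝ := phi n d (n - a - b) with hph
  have hphb : 0 ≤ ph ∧ ph ≤ 1 := phi_bd (by omega) (by omega)
  have hcast : ((n - a - b : ℕ) : ℝ) / n = 1 - A - B := by
    rw [Nat.sub_sub, Nat.cast_sub hab, Nat.cast_add, sub_div, div_self hnpos.ne', hA, hB]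
    ring
  have hphi := phi_approx (d := d) (c := n - a - b) hn (by omega) d le_rfl
  rw [hcast, ← hph] at hphi
  have hgeom := PP_geom d (1 - A - B)
  rw [← hPA] at hgeom
  have hm : |(1 - ph) - (A + B) * PA| ≤ (d : ℝ) ^ 2 * ((A + B) / n) := by
    have e : (1 - ph) - (A + B) * PA = -(ph - (1 - A - B) ^ d) := by
      have e2 : (A + B) * PA = 1 - (1 - A - B) ^ d := by
        rw [← hgeom]; ring
      rw [e2]; ring
    rw [e, abs_neg]
    have e3 : (1 - (1 - A - B)) / (n : ℝ) = (A + B) / n := by ring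
    rw [e3] at hphi
    exact hphi
  -- fractions
  have hfr : ∀ w : ℕ, w ≤ a + b → 0 ≤ (w : ℝ) / ((a : ℝ) + b) ∧ (w : ℝ) / ((a : ℝ) + b) ≤ 1 := by
    intro w hw
    have hwR : (w : ℝ) ≤ (a : ℝ) + b := by exact_mod_cast hw
    exact ⟨by positivity, div_le_one_of_le₀ hwR (by positivity)⟩
  have hclose : ∀ w : ℕ, w ≤ a + b →
      |(1 - ph) * ((w : ℝ) / ((a : ℝ) + b)) - (w : ℝ) / n * PA| ≤ (d : ℝ) ^ 2 / n := by
    intro w hw
    obtain ⟨f0, f1⟩ := hfr w hw
    rcases Nat.eq_zero_or_pos (a + b) with h0 | hpos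
    · have hw0 : w = 0 := by omega
      subst hw0
      simp only [Nat.cast_zero, zero_div, mul_zero, zero_mul, sub_zero, abs_zero]
      positivity
    · have hposR : (0 : ℝ) < (a : ℝ) + b := by exact_mod_cast hpos
      have e : (1 - ph) * ((w : ℝ) / ((a : ℝ) + b)) - (w : ℝ) / n * PA
          = (w : ℝ) / ((a : ℝ) + b) * ((1 - ph) - (A + B) * PA) := by
        rw [hABe]
        field_simp
      rw [e, abs_mul, abs_of_nonneg f0]
      refine (mul_le_of_le_one_left (abs_nonneg _) f1).trans (hm.trans ?_)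
      rw [mul_div_assoc']
      apply div_le_div_of_nonneg_right _ hnpos.le
      exact mul_le_of_le_one_right (by positivity) hAB
  set U : ℝ := (1 - ph) * ((a : ℝ) / ((a : ℝ) + b)) with hU
  set V : ℝ := (1 - ph) * ((b : ℝ) / ((a : ℝ) + b)) with hV
  have hUc : |U - A * PA| ≤ (d : ℝ) ^ 2 / n := hclose a (by omega)
  have hVc : |V - B * PA| ≤ (d : ℝ) ^ 2 / n := hclose b (by omega)
  have hfa := hfr a (by omega)
  have hfb := hfr b (by omega)
  have hU0 : 0 ≤ U := mul_nonneg (by linarith [hphb.2]) hfa.1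
  have hV0 : 0 ≤ V := mul_nonneg (by linarith [hphb.2]) hfb.1
  have hU1 : U ≤ 1 := mul_le_one₀ (by linarith [hphb.1]) hfa.1 hfa.2
  have hV1 : V ≤ 1 := mul_le_one₀ (by linarith [hphb.1]) hfb.1 hfb.2
  have hsum : ph + U + V = 1 := by
    rcases Nat.eq_zero_or_pos (a + b) with h0 | hpos
    · have ha' : a = 0 := by omega
      have hb' : b = 0 := by omega
      have hph1 : ph = 1 := by
        rw [hph, ha', hb']
        unfold phi
        rw [Nat.sub_zero, Nat.sub_zero]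
        apply div_self
        have : 0 < n.descFactorial d := Nat.descFactorial_pos.mpr (by omega)
        exact_mod_cast this.ne'
      rw [hU, hV, hph1]; ring
    · have hposR : (0 : ℝ) < (a : ℝ) + b := by exact_mod_cast hpos
      have : (a : ℝ) / ((a : ℝ) + b) + (b : ℝ) / ((a : ℝ) + b) = 1 := by
        rw [← add_div, div_self hposR.ne']
      rw [hU, hV]
      linear_combination (1 - ph) * this
  -- shifts
  set s1 : ℝ := α - α' with hs1
  set s2 : ℝ := β - β' with hs2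
  have hK2 : K / (n : ℝ) ^ 2 ≤ K / n := by
    apply div_le_div_of_nonneg_left hK hnpos
    nlinarith
  have g1 : |s1 - α * P / n| ≤ K / (n : ℝ) ^ 2 := by
    have e : s1 - α * P / n = -(α' - (α - α * P / n)) := by rw [hs1]; ring
    rw [e, abs_neg]; exact h1
  have g2 : |s2 + (α - β) * P / n| ≤ K / (n : ℝ) ^ 2 := by
    have e : s2 + (α - β) * P / n = -(β' - (β + (α - β) * P / n)) := by rw [hs2]; ring
    rw [e, abs_neg]; exact h2
  have b1 : |α * P / n| ≤ d / n := by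
    rw [abs_of_nonneg (by positivity)]
    apply div_le_div_of_nonneg_right _ hnpos.le
    calc α * P ≤ 1 * P := mul_le_mul_of_nonneg_right (by linarith) hP0
      _ ≤ d := by linarith
  have b2 : |(α - β) * P / n| ≤ d / n := by
    rw [abs_div, abs_of_pos hnpos]
    apply div_le_div_of_nonneg_right _ hnpos.le
    rw [abs_mul, abs_of_nonneg hP0]
    have : |α - β| ≤ 1 := abs_le.mpr ⟨by linarith, by linarith⟩
    calc |α - β| * P ≤ 1 * P := mul_le_mul_of_nonneg_right this hP0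
      _ ≤ d := by linarith
  have hs1b : |s1| ≤ ((d : ℝ) + K) / n := by
    have e : s1 = (s1 - α * P / n) + α * P / n := by ring
    rw [e, add_div]
    refine (abs_add_le _ _).trans ?_
    linarith
  have hs2b : |s2| ≤ ((d : ℝ) + K) / n := by
    have e : s2 = (s2 + (α - β) * P / n) + -((α - β) * P / n) := by ring
    rw [e, add_div]
    refine (abs_add_le _ _).trans ?_
    rw [abs_neg]
    linarith
  have hαP : |α * P - A * PA| ≤ d * |x| + (d : ℝ) ^ 2 * (|x| + |y|) := by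
    have e : α * P - A * PA = -(x * P) + A * (P - PA) := by rw [hx]; ring
    rw [e]
    refine (abs_add_le _ _).trans ?_
    rw [abs_neg, abs_mul, abs_mul, abs_of_nonneg hP0, abs_of_nonneg hA0]
    have q1 : |x| * P ≤ d * |x| := by
      rw [mul_comm]; exact mul_le_mul_of_nonneg_right hPd (abs_nonneg _)
    have q2 : A * |P - PA| ≤ |P - PA| := mul_le_of_le_one_left (abs_nonneg _) (by linarith)
    linarith
  have hABP : |(A - B) * PA - (α - β) * P| ≤ ((d : ℝ) + (d : ℝ) ^ 2) * (|x| + |y|) := by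
    have e : (A - B) * PA - (α - β) * P = (x - y) * PA + (α - β) * (PA - P) := by
      rw [hx, hy]; ring
    rw [e]
    refine (abs_add_le _ _).trans ?_
    rw [abs_mul, abs_mul, abs_of_nonneg hPA0, abs_sub_comm PA P]
    have q0 : |x - y| ≤ |x| + |y| := abs_sub _ _
    have q1 : |x - y| * PA ≤ (|x| + |y|) * d :=
      mul_le_mul q0 hPAd hPA0 (by positivity)
    have q3 : |α - β| ≤ 1 := abs_le.mpr ⟨by linarith, by linarith⟩
    have q2 : |α - β| * |P - PA| ≤ |P - PA| := mul_le_of_le_one_left (abs_nonneg _) q3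
    linarith
  have hfin := final (d : ℝ) K ((d : ℝ) ^ 2) n x y s1 s2 U V
    (2 * x * s1 - 2 / n * U * x) (2 * y * s2 + 2 / n * (U - V) * y)
    hn1 hd0 hK (by positivity) hU0 hU1 hV0 hV1 hs1b hs2b rfl rfl ?_ ?_
  · refine le_trans (le_of_eq ?_) hfin
    unfold Pool.Agent.X143.SD.Top
    rw [← hph]
    have G1 : (a : ℝ) / ((a : ℝ) + b) * ((((a - 1 : ℕ) : ℝ) / n - α') ^ 2
          + (((b + 1 : ℕ) : ℝ) / n - β') ^ 2)
        = (a : ℝ) / ((a : ℝ) + b) * ((x + s1 - 1 / n) ^ 2 + (y + s2 + 1 / n) ^ 2) := by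
      rcases Nat.eq_zero_or_pos a with h0 | hpos
      · rw [h0]; simp
      · congr 1
        rw [Nat.cast_sub (show 1 ≤ a from hpos), Nat.cast_add, Nat.cast_one, hx, hy, hs1, hs2, hA, hB]
        ring
    have G2 : (b : ℝ) / ((a : ℝ) + b) * (((a : ℝ) / n - α') ^ 2
          + (((b - 1 : ℕ) : ℝ) / n - β') ^ 2)
        = (b : ℝ) / ((a : ℝ) + b) * ((x + s1) ^ 2 + (y + s2 - 1 / n) ^ 2) := by
      rcases Nat.eq_zero_or_pos b with h0 | hpos
      · rw [h0]; simp
      · congr 1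
        rw [Nat.cast_sub (show 1 ≤ b from hpos), Nat.cast_one, hx, hy, hs1, hs2, hA, hB]
        ring
    have G0 : ((a : ℝ) / n - α') ^ 2 + ((b : ℝ) / n - β') ^ 2 = (x + s1) ^ 2 + (y + s2) ^ 2 := by
      rw [hx, hy, hs1, hs2, hA, hB]; ring
    simp only
    rw [G1, G2, G0]
    have hph' : ph = 1 - U - V := by linarith
    have e1 : (1 - ph) * ((a : ℝ) / ((a : ℝ) + b) * ((x + s1 - 1 / n) ^ 2 + (y + s2 + 1 / n) ^ 2)
        + (b : ℝ) / ((a : ℝ) + b) * ((x + s1) ^ 2 + (y + s2 - 1 / n) ^ 2))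
        = U * ((x + s1 - 1 / n) ^ 2 + (y + s2 + 1 / n) ^ 2)
          + V * ((x + s1) ^ 2 + (y + s2 - 1 / n) ^ 2) := by
      rw [hU, hV]; ring
    rw [e1]
    have e2 : ph * ((x + s1) ^ 2 + (y + s2) ^ 2) = (1 - U - V) * ((x + s1) ^ 2 + (y + s2) ^ 2) := by
      rw [← hph']
    rw [e2]
    field_simp
    ring
  · have e : 2 * x * s1 - 2 / n * U * x
        = 2 * x / n * ((α * P - A * PA) - (U - A * PA)) + 2 * x * (s1 - α * P / n) := by
      field_simp
      ring
    rw [e]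
    refine (abs_add_le _ _).trans ?_
    have q1 : |2 * x / n * ((α * P - A * PA) - (U - A * PA))|
        ≤ 2 * |x| / n * (d * |x| + (d : ℝ) ^ 2 * (|x| + |y|)) + 2 * (d : ℝ) ^ 2 / (n : ℝ) ^ 2 := by
      rw [abs_mul, abs_div, abs_mul, abs_two, abs_of_pos hnpos]
      have q2 : |(α * P - A * PA) - (U - A * PA)| ≤
          (d * |x| + (d : ℝ) ^ 2 * (|x| + |y|)) + (d : ℝ) ^ 2 / n :=
        (abs_sub _ _).trans (add_le_add hαP hUc)
      refine (mul_le_mul_of_nonneg_left q2 (by positivity)).trans ?_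
      rw [mul_add]
      have q3 : 2 * |x| / n * ((d : ℝ) ^ 2 / n) ≤ 2 * (d : ℝ) ^ 2 / (n : ℝ) ^ 2 := by
        have e5 : 2 * |x| / n * ((d : ℝ) ^ 2 / n) = |x| * (2 * (d : ℝ) ^ 2 / (n : ℝ) ^ 2) := by
          field_simp
        rw [e5]
        exact mul_le_of_le_one_left (by positivity) hx1
      linarith
    have q4 : |2 * x * (s1 - α * P / n)| ≤ 2 * K / (n : ℝ) ^ 2 := by
      rw [abs_mul, abs_mul, abs_two]
      have q5 : |x| * |s1 - α * P / n| ≤ K / (n : ℝ) ^ 2 :=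
        (mul_le_of_le_one_left (abs_nonneg _) hx1).trans g1
      have e6 : 2 * |x| * |s1 - α * P / n| = 2 * (|x| * |s1 - α * P / n|) := by ring
      have e7 : 2 * K / (n : ℝ) ^ 2 = 2 * (K / (n : ℝ) ^ 2) := by ring
      rw [e6, e7]
      linarith
    have e8 : (2 * (d : ℝ) ^ 2 + 2 * K) / (n : ℝ) ^ 2
        = 2 * (d : ℝ) ^ 2 / (n : ℝ) ^ 2 + 2 * K / (n : ℝ) ^ 2 := add_div _ _ _
    rw [e8]
    linarith
  · have e : 2 * y * s2 + 2 / n * (U - V) * y
        = 2 * y / n * (((U - A * PA) - (V - B * PA)) + ((A - B) * PA - (α - β) * P))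
          + 2 * y * (s2 + (α - β) * P / n) := by
      field_simp
      ring
    rw [e]
    refine (abs_add_le _ _).trans ?_
    have q1 : |2 * y / n * (((U - A * PA) - (V - B * PA)) + ((A - B) * PA - (α - β) * P))|
        ≤ 2 * |y| / n * (((d : ℝ) + (d : ℝ) ^ 2) * (|x| + |y|)) + 4 * (d : ℝ) ^ 2 / (n : ℝ) ^ 2 := by
      rw [abs_mul, abs_div, abs_mul, abs_two, abs_of_pos hnpos]
      have q2 : |((U - A * PA) - (V - B * PA)) + ((A - B) * PA - (α - β) * P)| ≤
          ((d : ℝ) ^ 2 / n + (d : ℝ) ^ 2 / n) + ((d : ℝ) + (d : ℝ) ^ 2) * (|x| + |y|) :=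
        (abs_add_le _ _).trans (add_le_add ((abs_sub _ _).trans (add_le_add hUc hVc)) hABP)
      refine (mul_le_mul_of_nonneg_left q2 (by positivity)).trans ?_
      rw [mul_add]
      have q3 : 2 * |y| / n * ((d : ℝ) ^ 2 / n + (d : ℝ) ^ 2 / n) ≤ 4 * (d : ℝ) ^ 2 / (n : ℝ) ^ 2 := by
        have e5 : 2 * |y| / n * ((d : ℝ) ^ 2 / n + (d : ℝ) ^ 2 / n)
            = |y| * (4 * (d : ℝ) ^ 2 / (n : ℝ) ^ 2) := by
          field_simp
          ring
        rw [e5]
        exact mul_le_of_le_one_left (by positivity) hy1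
      linarith
    have q4 : |2 * y * (s2 + (α - β) * P / n)| ≤ 2 * K / (n : ℝ) ^ 2 := by
      rw [abs_mul, abs_mul, abs_two]
      have q5 : |y| * |s2 + (α - β) * P / n| ≤ K / (n : ℝ) ^ 2 :=
        (mul_le_of_le_one_left (abs_nonneg _) hy1).trans g2
      have e6 : 2 * |y| * |s2 + (α - β) * P / n| = 2 * (|y| * |s2 + (α - β) * P / n|) := by ring
      have e7 : 2 * K / (n : ℝ) ^ 2 = 2 * (K / (n : ℝ) ^ 2) := by ring
      rw [e6, e7]
      linarith
    have e8 : (4 * (d : ℝ) ^ 2 + 2 * K) / (n : ℝ) ^ 2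
        = 4 * (d : ℝ) ^ 2 / (n : ℝ) ^ 2 + 2 * K / (n : ℝ) ^ 2 := add_div _ _ _
    rw [e8]
    linarith

end Pool.Agent.X50.SDO
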